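import Pool.Agent.helper59.FI.SpecB

/-!
# Row CVS of project fi (MP_baa4d7_al), block A2

Splitting a `T`-invariant function into classes.
-/

set_option autoImplicit false

namespace Pool.Agent.FI

open Pool.Agent.helper58.DC Pool.Agent.DI Pool.Agent.GR Pool.Agent.OB

theorem CVS_key {p : ℕ} {M : Ideal (integralClosure ℤ ℂ)} (hs : Setup p M) {G : Type} [Group G] [Finite G]
    (T : Subgroup G) (ψ : G → ℂ) : ∀ n : ℕ, ∀ q : G → ℂ, (∀ t ∈ T, ∀ y, q (t * y * t⁻¹) = q y) →
    (∀ y, InM M (q y * cc ψ (cls T y))) → {y | q y ≠ 0}.ncard = n → InM M (cc ψ q) := by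
  intro n
  induction n using Nat.strong_induction_on with
  | _ n ih =>
    intro q hq hm hn
    by_cases h0 : ∀ y, q y = 0
    · have h1 : cc ψ q = 0 := by
        unfold cc
        have h2 : ∑ᶠ x, q x * ψ x = 0 := by
          rw [finsum_congr (fun x => by rw [h0 x, zero_mul]), finsum_zero]
        rw [h2, zero_div]
      rw [h1]
      exact InM.zero hs
    · push Not at h0
      obtain ⟨y, hy⟩ := h0
      set q' : G → ℂ := fun x => q x - q y * cls T y x with hq'
      have hin : ∀ x, (∃ l ∈ T, l * y * l⁻¹ = x) → q' x = 0 ∧ q x = q y := by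
        rintro x ⟨l, hl, rfl⟩
        have h1 : q (l * y * l⁻¹) = q y := hq l hl y
        refine ⟨?_, h1⟩
        change q (l * y * l⁻¹) - q y * cls T y (l * y * l⁻¹) = 0
        rw [cls_one ⟨l, hl, rfl⟩, h1, mul_one, sub_self]
      have hout : ∀ x, (¬ ∃ l ∈ T, l * y * l⁻¹ = x) → q' x = q x := by
        intro x hx
        change q x - q y * cls T y x = q x
        rw [cls_zero hx, mul_zero, sub_zero]
      have hyin : ∃ l ∈ T, l * y * l⁻¹ = y := ⟨1, T.one_mem, by group⟩
      have hsub : {x | q' x ≠ 0} ⊂ {x | q x ≠ 0} := by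
        refine ⟨fun x hx => ?_, fun h => ?_⟩
        · by_cases hc : ∃ l ∈ T, l * y * l⁻¹ = x
          · exact absurd (hin x hc).1 hx
          · have h1 := hout x hc
            change q x ≠ 0
            rw [← h1]
            exact hx
        · exact (h (show y ∈ {x | q x ≠ 0} from hy)) (hin y hyin).1
      have hlt : {x | q' x ≠ 0}.ncard < n := by
        rw [← hn]
        exact Set.ncard_lt_ncard hsub (Set.toFinite _)
      have h1 : InM M (cc ψ q') := by
        refine ih _ hlt q' ?_ ?_ rfl
        · intro t ht x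
          change q (t * x * t⁻¹) - q y * cls T y (t * x * t⁻¹) = q x - q y * cls T y x
          rw [hq t ht x, cls_inv ht]
        · intro x
          by_cases hc : ∃ l ∈ T, l * y * l⁻¹ = x
          · rw [(hin x hc).1, zero_mul]
            exact InM.zero hs
          · rw [hout x hc]
            exact hm x
      have h2 : cc ψ q = cc ψ q' + q y * cc ψ (cls T y) := by
        unfold cc
        rw [← mul_div_assoc, ← add_div]
        congr 1
        rw [mul_finsum, ← finsum_add_distrib (Set.toFinite _) (Set.toFinite _)]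
        refine finsum_congr fun x => ?_
        change q x * ψ x = (q x - q y * cls T y x) * ψ x + q y * (cls T y x * ψ x)
        ring
      rw [h2]
      exact h1.add hs (hm y)

theorem CVS : CVS_stmt := by
  intro p M hs G _ _ T ψ q hq hqI hcI hn
  by_contra hcon
  push Not at hcon
  apply hn
  refine CVS_key hs T ψ _ q hq (fun y => ?_) rfl
  by_cases h : InM M (q y)
  · exact h.mul_right hs (hcI y)
  · exact (hcon y h).mul_left hs (hqI y)

end Pool.Agent.FI
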